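import Mathlib
import Pool.Agent.H160L.AffC
import Pool.Agent.H160L.Small
import Pool.Agent.W472.AC.RothThm

/-!
# Lang's inequality for almost all affine images of an algebraic number

Let `ξ` be a real algebraic irrational number. For almost all triples `(a, b, d)` with `|a| ≤ H` and
`1 ≤ b, d ≤ H`, Lang's inequality holds for the algebraic number `(a + b ξ) / d` with one constant
and for all denominators up to `H ^ κ`, where `κ` is as large as we please.

Proof. For fixed `b` and `d` the fractions `(b ξ + a) / d` which are close to `p / q` give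
`‖q b ξ / g‖` small, where `g = gcd (q, d)`, and each such `q` belongs to at most `g` residue classes
of `a` modulo `d`. The number of solutions of such inequalities is bounded by Roth's theorem for `ξ`
(with the exceptional `b`, for which `b ξ` has a very good approximation with a small denominator,
treated separately), and this suffices in all ranges of `q`.
-/

set_option autoImplicit false

namespace Pool.Agent.Results.MP_c307ca_nt.AffineImages

open Finset Filter
open Pool.Agent.H160L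
open Pool.Agent.Results.MP_c307ca_nt.AlmostAllToHeight (w w_pos w_eq)

/-- Lang's inequality for the number `α` with the constant `c`, for the denominators up to `N`. -/
def LangUpTo (N c ε α : ℝ) : Prop :=
  ∀ (p : ℤ) (q : ℕ), 2 ≤ q → (q : ℝ) ≤ N →
    c / ((q : ℝ) ^ 2 * Real.log q ^ (1 + ε)) < |α - (p : ℝ) / q|

theorem not_lang (N c ε α : ℝ) (h : ¬ LangUpTo N c ε α) :
    ∃ (p : ℤ) (q : ℕ), 2 ≤ q ∧ (q : ℝ) ≤ N ∧
      |α - (p : ℝ) / q| ≤ c / ((q : ℝ) ^ 2 * Real.log q ^ (1 + ε)) := by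
  unfold LangUpTo at h
  push Not at h
  exact h

/-- The triples `(a, b, d)` with `|a| ≤ H`, `1 ≤ b ≤ H`, `1 ≤ d ≤ H` for which Lang's inequality for
`(a + b ξ) / d` with the constant `c` fails for some denominator up to `H ^ κ`. -/
def Exceptions (ξ κ ε c : ℝ) (H : ℕ) : Set (ℤ × ℕ × ℕ) :=
  {z | |z.1| ≤ (H : ℤ) ∧ (1 ≤ z.2.1 ∧ z.2.1 ≤ H) ∧ (1 ≤ z.2.2 ∧ z.2.2 ≤ H) ∧
    ¬ LangUpTo ((H : ℝ) ^ κ) c ε (((z.1 : ℝ) + z.2.1 * ξ) / z.2.2)}

/-- **Lang's inequality for almost all affine images of an algebraic number.** Let `ξ` be a real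
algebraic irrational number, `κ` any real number and `ε, η > 0`. Then there is `c > 0` such that for
every `H ≥ 1` all but at most `η H ^ 3` of the triples `(a, b, d)` with `|a| ≤ H`, `1 ≤ b ≤ H` and
`1 ≤ d ≤ H` have the property that `α = (a + b ξ) / d` satisfies
`|α - p / q| > c / (q² (log q) ^ (1 + ε))` for all integers `p` and all `2 ≤ q ≤ H ^ κ`. -/
theorem result (ξ : ℝ) (halg : IsAlgebraic ℚ ξ) (hirr : Irrational ξ) (κ ε η : ℝ) (hε : 0 < ε)
    (hη : 0 < η) :
    ∃ c : ℝ, 0 < c ∧ ∀ H : ℕ, 1 ≤ H →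
      (Exceptions ξ κ ε c H).Finite ∧ ((Exceptions ξ κ ε c H).ncard : ℝ) ≤ η * (H : ℝ) ^ 3 := by
  classical
  have hwpos := fun q => w_pos ε q
  have hκ1 : 1 ≤ max κ 1 := le_max_right _ _
  obtain ⟨c1, hc1, hev⟩ := aff_large ξ
    (fun τ hτ => Pool.Agent.W472.AC.roth ξ halg hirr τ hτ) (max κ 1) ε η hκ1 hε hη
  obtain ⟨H0, hH0⟩ := eventually_atTop.1 hev
  set F : Finset (ℤ × ℕ × ℕ) := (Icc (-(H0 : ℤ)) H0) ×ˢ (Icc 1 H0 ×ˢ Icc 1 H0) with hF
  obtain ⟨c2, hc2, hsm⟩ := small F (fun z => ((z.1 : ℝ) + z.2.1 * ξ) / z.2.2) (fun z hz => by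
    rw [hF, mem_product, mem_product, mem_Icc, mem_Icc, mem_Icc] at hz
    have hb : z.2.1 ≠ 0 := by omega
    have hd : z.2.2 ≠ 0 := by omega
    exact ((hirr.natCast_mul hb).intCast_add z.1).div_natCast hd) ε ⌊(H0 : ℝ) ^ (max κ 1)⌋₊
  refine ⟨min c1 c2, lt_min hc1 hc2, fun H hH => ?_⟩
  have hHr : (1 : ℝ) ≤ H := by exact_mod_cast hH
  have hκle : (H : ℝ) ^ κ ≤ (H : ℝ) ^ (max κ 1) :=
    Real.rpow_le_rpow_of_exponent_le hHr (le_max_left _ _)
  have hwge : ∀ q : ℕ, 2 ≤ q → ∀ c : ℝ,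
      c / ((q : ℝ) ^ 2 * Real.log q ^ (1 + ε)) = c * w ε q := fun q hq c => w_eq ε c q hq
  have hfin : (Exceptions ξ κ ε (min c1 c2) H).Finite := by
    refine (Finset.finite_toSet ((Icc (-(H : ℤ)) H) ×ˢ (Icc 1 H ×ˢ Icc 1 H))).subset ?_
    rintro ⟨a, b, d⟩ ⟨ha, hb, hd, _⟩
    rw [mem_coe, mem_product, mem_product]
    exact ⟨mem_Icc.2 (abs_le.1 ha), mem_Icc.2 hb, mem_Icc.2 hd⟩
  refine ⟨hfin, ?_⟩
  rcases le_or_gt H0 H with hle | hlt
  · refine le_trans ?_ (hH0 H hle)
    rw [← Set.ncard_coe_finset]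
    refine Nat.cast_le.2 (Set.ncard_le_ncard ?_ (Finset.finite_toSet _))
    rintro ⟨a, b, d⟩ ⟨ha, hb, hd, hl⟩
    obtain ⟨p, q, hq, hqN, hpq⟩ := not_lang _ _ _ _ hl
    rw [mem_coe, mem_filter, mem_product, mem_product]
    refine ⟨⟨mem_Icc.2 (abs_le.1 ha), mem_Icc.2 hb, mem_Icc.2 hd⟩, p, q, hq, hqN.trans hκle,
      hpq.trans ?_⟩
    rw [hwge q hq, hwge q hq]
    exact mul_le_mul_of_nonneg_right (min_le_left _ _) (hwpos q).le
  · have hempty : Exceptions ξ κ ε (min c1 c2) H = ∅ := by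
      rw [Set.eq_empty_iff_forall_notMem]
      rintro ⟨a, b, d⟩ ⟨ha, hb, hd, hl⟩
      obtain ⟨p, q, hq, hqN, hpq⟩ := not_lang _ _ _ _ hl
      have haF : (a, b, d) ∈ F := by
        rw [hF, mem_product, mem_product]
        have := abs_le.1 ha
        simp only at hb hd this
        refine ⟨mem_Icc.2 ?_, mem_Icc.2 ?_, mem_Icc.2 ?_⟩
        · constructor <;> (simp only; omega)
        · constructor <;> (simp only; omega)
        · constructor <;> (simp only; omega)
      have hqM : (q : ℝ) ≤ (H0 : ℝ) ^ (max κ 1) := by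
        refine (hqN.trans hκle).trans (Real.rpow_le_rpow (by linarith) ?_ (by linarith))
        exact_mod_cast hlt.le
      have h1 := hsm (a, b, d) haF p q hq (Nat.le_floor hqM)
      rw [hwge q hq] at hpq
      have h2 : (min c1 c2) * w ε q ≤ c2 * w ε q :=
        mul_le_mul_of_nonneg_right (min_le_right _ _) (hwpos q).le
      exact absurd (hpq.trans h2) (not_le.2 h1)
    rw [hempty, Set.ncard_empty]
    push_cast
    positivity

end Pool.Agent.Results.MP_c307ca_nt.AffineImages
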