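import Mathlib
import Pool.Agent.H160L.Small

/-!
# Lang's inequality for almost all elements of a real number field
-/

set_option autoImplicit false

namespace Pool.Agent.Results.MP_c307ca_nt.NumberFieldElements

open Finset Filter
open Pool.Agent.H160L
open Pool.Agent.Results.MP_c307ca_nt.AlmostAllToHeight (w w_pos w_anti w_summable w_eq)

/-- Lang's inequality for the number `α` with the constant `c`, for the denominators up to `N`. -/
def LangUpTo (N c ε α : ℝ) : Prop :=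
  ∀ (p : ℤ) (q : ℕ), 2 ≤ q → (q : ℝ) ≤ N →
    c / ((q : ℝ) ^ 2 * Real.log q ^ (1 + ε)) < |α - (p : ℝ) / q|

theorem not_lang (N c ε α : ℝ) (h : ¬ LangUpTo N c ε α) :
    ∃ (p : ℤ) (q : ℕ), 2 ≤ q ∧ (q : ℝ) ≤ N ∧ |α - (p : ℝ) / q| ≤ c * w ε q := by
  unfold LangUpTo at h
  push Not at h
  obtain ⟨p, q, h1, h2, h3⟩ := h
  exact ⟨p, q, h1, h2, by rwa [w_eq ε c q h1] at h3⟩

/-- **Lang's inequality for almost all elements of a real number field.** Let `K` be a real number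
field of degree `m + 1 ≥ 2`, and `b 0 = 1, b 1, ..., b m` a basis of `K` over `ℚ`. Let `κ < m + 1`
and `ε, η > 0`. Then there is `c > 0` such that for every `H ≥ 1` all but at most `η H ^ (m + 2)` of
the vectors `(a, d)` with `|a i| ≤ H` for `0 ≤ i ≤ m`, `1 ≤ d ≤ H` and `(a 1, ..., a m) ≠ 0` have
the property that `α = (a 0 * b 0 + ... + a m * b m) / d` satisfies
`|α - p / q| > c / (q² (log q)^(1+ε))` for all integers `p` and all `2 ≤ q ≤ H ^ κ`. -/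
theorem result (m : ℕ) (hm : 1 ≤ m) (K : IntermediateField ℚ ℝ)
    (b : Module.Basis (Fin (m + 1)) ℚ K) (hb : b 0 = 1) (κ ε η : ℝ) (hκ : κ < m + 1) (hε : 0 < ε)
    (hη : 0 < η) :
    ∃ c : ℝ, 0 < c ∧ ∀ H : ℕ, 1 ≤ H →
      {z : (Fin (m + 1) → ℤ) × ℕ | (∃ i : Fin m, z.1 i.succ ≠ 0) ∧ (∀ i, |z.1 i| ≤ (H : ℤ)) ∧
        1 ≤ z.2 ∧ z.2 ≤ H ∧
        ¬ LangUpTo ((H : ℝ) ^ κ) c ε
          ((∑ i : Fin (m + 1), (z.1 i : ℝ) * (b i : ℝ)) / z.2)}.Finite ∧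
      ({z : (Fin (m + 1) → ℤ) × ℕ | (∃ i : Fin m, z.1 i.succ ≠ 0) ∧ (∀ i, |z.1 i| ≤ (H : ℤ)) ∧
        1 ≤ z.2 ∧ z.2 ≤ H ∧
        ¬ LangUpTo ((H : ℝ) ^ κ) c ε
          ((∑ i : Fin (m + 1), (z.1 i : ℝ) * (b i : ℝ)) / z.2)}.ncard : ℝ) ≤
        η * (H : ℝ) ^ (m + 2) := by
  classical
  obtain ⟨c0, hc0, hbad⟩ := bad m K b hb
  set ω : Fin m → ℝ := fun i => (b i.succ : ℝ) with hω
  have hwpos := fun q => w_pos ε q
  have hm1 : (0 : ℝ) < m + 1 := by positivity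
  obtain ⟨c1, hc1, hev⟩ := large_B m hm ω c0 hc0 hbad (max κ 0) ε η (le_max_right _ _)
    (max_lt hκ hm1) hε hη
  obtain ⟨H0, hH0⟩ := eventually_atTop.1 hev
  set F : Finset ((Fin (m + 1) → ℤ) × ℕ) :=
    ((Fintype.piFinset (fun _ : Fin (m + 1) => Icc (-(H0 : ℤ)) (H0 : ℤ))) ×ˢ Icc 1 H0).filter
    (fun z => ∃ i : Fin m, z.1 i.succ ≠ 0) with hF
  obtain ⟨c2, hc2, hsm⟩ := small F
    (fun z => (∑ i : Fin (m + 1), (z.1 i : ℝ) * (b i : ℝ)) / z.2) (fun z hz => by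
    obtain ⟨h1, h2⟩ := mem_filter.1 hz
    have h3 := (mem_Icc.1 (mem_product.1 h1).2).1
    exact (irr m K b hb z.1 h2).div_natCast (by omega)) ε ⌊(H0 : ℝ) ^ (max κ 0)⌋₊
  refine ⟨min c1 c2, lt_min hc1 hc2, fun H hH => ?_⟩
  set S : Set ((Fin (m + 1) → ℤ) × ℕ) := {z : (Fin (m + 1) → ℤ) × ℕ |
      (∃ i : Fin m, z.1 i.succ ≠ 0) ∧ (∀ i, |z.1 i| ≤ (H : ℤ)) ∧ 1 ≤ z.2 ∧ z.2 ≤ H ∧
      ¬ LangUpTo ((H : ℝ) ^ κ) (min c1 c2) ε
        ((∑ i : Fin (m + 1), (z.1 i : ℝ) * (b i : ℝ)) / z.2)} with hS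
  have hfin : S.Finite := by
    refine (Finset.finite_toSet ((Fintype.piFinset
      (fun _ : Fin (m + 1) => Icc (-(H : ℤ)) (H : ℤ))) ×ˢ Icc 1 H)).subset ?_
    rintro z ⟨_, hz, h1, h2, _⟩
    rw [mem_coe, mem_product, Fintype.mem_piFinset]
    exact ⟨fun i => mem_Icc.2 (abs_le.1 (hz i)), mem_Icc.2 ⟨h1, h2⟩⟩
  refine ⟨hfin, ?_⟩
  rcases le_or_gt H0 H with hle | hlt
  · rw [Set.ncard_eq_toFinset_card _ hfin]
    set φ : (Fin (m + 1) → ℤ) × ℕ → ℤ × (Fin m → ℤ) × ℕ := fun z =>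
      (z.1 0, (fun i => z.1 i.succ, z.2)) with hφ
    have hinj : Function.Injective φ := by
      intro z z' h
      rw [hφ] at h
      simp only [Prod.mk.injEq] at h
      obtain ⟨h1, h2, h3⟩ := h
      refine Prod.ext (funext fun i => ?_) h3
      refine Fin.cases h1 (fun j => congrFun h2 j) i
    rw [← card_image_of_injective _ hinj]
    refine hH0 H hle _ fun y hy => ?_
    obtain ⟨z, hz, rfl⟩ := mem_image.1 hy
    rw [Set.Finite.mem_toFinset] at hz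
    obtain ⟨_, hz1, hz2, hz3, hz4⟩ := hz
    obtain ⟨p, q, hq, hqN, hpq⟩ := not_lang _ _ _ _ hz4
    have hHr : (1 : ℝ) ≤ H := by exact_mod_cast hH
    refine ⟨hz1 0, fun i => hz1 i.succ, hz2, hz3, p, q, hq,
      hqN.trans (Real.rpow_le_rpow_of_exponent_le hHr (le_max_left _ _)), ?_⟩
    refine le_trans (le_of_eq ?_) (hpq.trans
      (mul_le_mul_of_nonneg_right (min_le_left _ _) (hwpos q).le))
    have h1 : ∑ i : Fin (m + 1), (z.1 i : ℝ) * (b i : ℝ) =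
        (z.1 0 : ℝ) + ∑ i : Fin m, (z.1 i.succ : ℝ) * ω i := by
      rw [Fin.sum_univ_succ, hb]
      have h3 : ((1 : K) : ℝ) = 1 := rfl
      rw [h3, mul_one]
    rw [h1]
  · have hempty : S = ∅ := by
      rw [Set.eq_empty_iff_forall_notMem]
      rintro z ⟨hz0, hz1, hz2, hz3, hz4⟩
      obtain ⟨p, q, hq, hqN, hpq⟩ := not_lang _ _ _ _ hz4
      have hzF : z ∈ F := by
        rw [hF, mem_filter, mem_product, Fintype.mem_piFinset]
        refine ⟨⟨fun i => ?_, mem_Icc.2 ⟨hz2, hz3.trans hlt.le⟩⟩, hz0⟩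
        have := abs_le.1 (hz1 i)
        rw [mem_Icc]
        constructor <;> omega
      have h1 := hsm z hzF p q hq (Nat.le_floor (hqN.trans (rpow_kappa_le H H0 hH hlt.le κ)))
      have h2 : (min c1 c2) * w ε q ≤ c2 * w ε q :=
        mul_le_mul_of_nonneg_right (min_le_right _ _) (hwpos q).le
      exact absurd (hpq.trans h2) (not_le.2 h1)
    rw [hempty, Set.ncard_empty]
    push_cast
    positivity

end Pool.Agent.Results.MP_c307ca_nt.NumberFieldElements
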