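import Mathlib
import Pool.Agent.H160L.Small

/-!
# Lang's inequality for almost all algebraic integers of a real number field
-/

set_option autoImplicit false

namespace Pool.Agent.Results.MP_c307ca_nt.NumberFieldIntegers

open Finset Filter
open Pool.Agent.H160L
open Pool.Agent.Results.MP_c307ca_nt.AlmostAllToHeight (w w_pos w_anti w_summable w_eq)

/-- Lang's inequality for the number `α` with the constant `c`, for the denominators up to `N`. -/
def LangUpTo (N c ε α : ℝ) : Prop :=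
  ∀ (p : ℤ) (q : ℕ), 2 ≤ q → (q : ℝ) ≤ N →
    c / ((q : ℝ) ^ 2 * Real.log q ^ (1 + ε)) < |α - (p : ℝ) / q|

theorem not_lang (N c ε α : ℝ) (h : ¬ LangUpTo N c ε α) :
    ∃ (p : ℤ) (q : ℕ), 2 ≤ q ∧ (q : ℝ) ≤ N ∧ |α - (p : ℝ) / q| ≤ c * w ε q := by
  unfold LangUpTo at h
  push Not at h
  obtain ⟨p, q, h1, h2, h3⟩ := h
  exact ⟨p, q, h1, h2, by rwa [w_eq ε c q h1] at h3⟩

/-- **Lang's inequality for almost all algebraic integers of a real number field.** Let `K` be a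
real number field of degree `m + 1 ≥ 2`, and `b 0 = 1, b 1, ..., b m` a basis of `K` over `ℚ` (for
instance an integral basis). Let `κ < m` and `ε, η > 0`. Then there is `c > 0` such that for every
`H ≥ 1` all but at most `η H ^ m` of the nonzero integral vectors `a` with `|a i| ≤ H` have the
property that `α = a 0 * b 1 + ... + a (m - 1) * b m` satisfies `|α - p / q| > c / (q² (log q)^(1+ε))`
for all integers `p` and all `2 ≤ q ≤ H ^ κ`. -/
theorem result (m : ℕ) (hm : 1 ≤ m) (K : IntermediateField ℚ ℝ)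
    (b : Module.Basis (Fin (m + 1)) ℚ K) (hb : b 0 = 1) (κ ε η : ℝ) (hκ : κ < m) (hε : 0 < ε)
    (hη : 0 < η) :
    ∃ c : ℝ, 0 < c ∧ ∀ H : ℕ, 1 ≤ H →
      {a : Fin m → ℤ | a ≠ 0 ∧ (∀ i, |a i| ≤ (H : ℤ)) ∧
        ¬ LangUpTo ((H : ℝ) ^ κ) c ε (∑ i : Fin m, (a i : ℝ) * (b i.succ : ℝ))}.Finite ∧
      ({a : Fin m → ℤ | a ≠ 0 ∧ (∀ i, |a i| ≤ (H : ℤ)) ∧
        ¬ LangUpTo ((H : ℝ) ^ κ) c ε (∑ i : Fin m, (a i : ℝ) * (b i.succ : ℝ))}.ncard : ℝ) ≤
        η * (H : ℝ) ^ m := by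
  classical
  obtain ⟨c0, hc0, hbad⟩ := bad m K b hb
  set ω : Fin m → ℝ := fun i => (b i.succ : ℝ) with hω
  have hwpos := fun q => w_pos ε q
  obtain ⟨c1, hc1, hev⟩ := large_A m hm ω c0 hc0 hbad (max κ 0) ε η (le_max_right _ _)
    (max_lt hκ (by exact_mod_cast hm)) hε hη
  obtain ⟨H0, hH0⟩ := eventually_atTop.1 hev
  set F : Finset (Fin m → ℤ) := (Fintype.piFinset (fun _ : Fin m => Icc (-(H0 : ℤ)) (H0 : ℤ))).filter
    (fun a => a ≠ 0) with hF
  obtain ⟨c2, hc2, hsm⟩ := small F (fun a => ∑ i : Fin m, (a i : ℝ) * ω i) (fun a ha => by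
    have ha0 := (mem_filter.1 ha).2
    have h1 : ∃ i : Fin m, (Fin.cons 0 a : Fin (m + 1) → ℤ) i.succ ≠ 0 := by
      by_contra hcon
      push Not at hcon
      exact ha0 (funext fun i => by simpa using hcon i)
    have h2 := irr m K b hb (Fin.cons 0 a) h1
    rw [Fin.sum_univ_succ] at h2
    simpa using h2) ε ⌊(H0 : ℝ) ^ (max κ 0)⌋₊
  refine ⟨min c1 c2, lt_min hc1 hc2, fun H hH => ?_⟩
  set S : Set (Fin m → ℤ) := {a : Fin m → ℤ | a ≠ 0 ∧ (∀ i, |a i| ≤ (H : ℤ)) ∧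
      ¬ LangUpTo ((H : ℝ) ^ κ) (min c1 c2) ε (∑ i : Fin m, (a i : ℝ) * (b i.succ : ℝ))} with hS
  have hfin : S.Finite := by
    refine (Finset.finite_toSet (Fintype.piFinset
      (fun _ : Fin m => Icc (-(H : ℤ)) (H : ℤ)))).subset ?_
    rintro a ⟨_, ha, _⟩
    rw [mem_coe, Fintype.mem_piFinset]
    exact fun i => mem_Icc.2 (abs_le.1 (ha i))
  refine ⟨hfin, ?_⟩
  rcases le_or_gt H0 H with hle | hlt
  · rw [Set.ncard_eq_toFinset_card _ hfin]
    refine hH0 H hle hfin.toFinset fun a ha => ?_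
    rw [Set.Finite.mem_toFinset] at ha
    obtain ⟨_, ha1, ha2⟩ := ha
    obtain ⟨p, q, hq, hqN, hpq⟩ := not_lang _ _ _ _ ha2
    have hHr : (1 : ℝ) ≤ H := by exact_mod_cast hH
    refine ⟨ha1, p, q, hq, hqN.trans (Real.rpow_le_rpow_of_exponent_le hHr (le_max_left _ _)),
      hpq.trans (mul_le_mul_of_nonneg_right (min_le_left _ _) (hwpos q).le)⟩
  · have hempty : S = ∅ := by
      rw [Set.eq_empty_iff_forall_notMem]
      rintro a ⟨ha0, ha1, ha2⟩
      obtain ⟨p, q, hq, hqN, hpq⟩ := not_lang _ _ _ _ ha2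
      have haF : a ∈ F := by
        rw [hF, mem_filter, Fintype.mem_piFinset]
        refine ⟨fun i => ?_, ha0⟩
        have := abs_le.1 (ha1 i)
        rw [mem_Icc]
        constructor <;> omega
      have h1 := hsm a haF p q hq (Nat.le_floor (hqN.trans (rpow_kappa_le H H0 hH hlt.le κ)))
      have h2 : (min c1 c2) * w ε q ≤ c2 * w ε q :=
        mul_le_mul_of_nonneg_right (min_le_right _ _) (hwpos q).le
      exact absurd (hpq.trans h2) (not_le.2 h1)
    rw [hempty, Set.ncard_empty]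
    push_cast
    positivity

end Pool.Agent.Results.MP_c307ca_nt.NumberFieldIntegers
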