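import Mathlib
import Pool.Agent.H160L.Val

/-!
# Lang's inequality for almost all values of a function at rational numbers

Let `φ` be a bounded real function on an interval which does not contract distances by more than a
constant factor, for instance a branch of an algebraic function; then its values at rational numbers
are algebraic numbers, of any given degree. For almost all rational numbers `r` with denominator at
most `H` in the interval, Lang's inequality holds for `φ(r)` with one constant `c` and for all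
denominators up to `c H`; the constant does not depend on `φ`. The same holds for the radicals
`(a / b) ^ (1 / k)`, `a, b ≤ H`.

Proof. For a given fraction `p / q` the rational numbers `r` with denominator at most `H` for which
`φ(r)` is close to `p / q` lie in a short interval, and they have distances at least `1 / H²` from
one another.
-/

set_option autoImplicit false

namespace Pool.Agent.Results.MP_c307ca_nt.ValuesAtRationals

open Finset
open Pool.Agent.H160L
open Pool.Agent.Results.MP_c307ca_nt.AlmostAllToHeight (w w_pos w_eq)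

/-- Lang's inequality for the number `α` with the constant `c`, for the denominators up to `N`. -/
def LangUpTo (N c ε α : ℝ) : Prop :=
  ∀ (p : ℤ) (q : ℕ), 2 ≤ q → (q : ℝ) ≤ N →
    c / ((q : ℝ) ^ 2 * Real.log q ^ (1 + ε)) < |α - (p : ℝ) / q|

/-- The rational numbers `r` in `[u, v]` with denominator at most `H` for which Lang's inequality for
`φ r` with the constant `c` fails for some denominator up to `c H`. -/
def Exceptions (u v ε c : ℝ) (φ : ℝ → ℝ) (H : ℕ) : Set ℚ :=
  {r | (r : ℝ) ∈ Set.Icc u v ∧ r.den ≤ H ∧ ¬ LangUpTo (c * H) c ε (φ r)}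

/-- The rational numbers `r = a / b > 0` with `a, b ≤ H` for which Lang's inequality for
`r ^ (1 / k)` with the constant `c` fails for some denominator up to `c H`. -/
def RadicalExceptions (k : ℕ) (ε c : ℝ) (H : ℕ) : Set ℚ :=
  {r | 0 < r ∧ r.num ≤ H ∧ r.den ≤ H ∧ ¬ LangUpTo (c * H) c ε ((r : ℝ) ^ (1 / (k : ℝ)))}

theorem not_lang (N c ε α : ℝ) (h : ¬ LangUpTo N c ε α) :
    ∃ (p : ℤ) (q : ℕ), 2 ≤ q ∧ (q : ℝ) ≤ N ∧ |α - (p : ℝ) / q| ≤ c * w ε q := by
  unfold LangUpTo at h
  push Not at h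
  obtain ⟨p, q, h1, h2, h3⟩ := h
  exact ⟨p, q, h1, h2, by rwa [w_eq ε c q h1] at h3⟩

theorem rats_finite (u v : ℝ) (H : ℕ) : {r : ℚ | (r : ℝ) ∈ Set.Icc u v ∧ r.den ≤ H}.Finite := by
  set N : ℤ := ⌈max |u| |v|⌉ * H with hN
  refine Set.Finite.subset
    (((Icc (-N) N ×ˢ Icc 0 H).image (fun z : ℤ × ℕ => (z.1 : ℚ) / z.2)).finite_toSet) ?_
  rintro r ⟨⟨h1, h2⟩, h3⟩
  rw [Finset.mem_coe, mem_image]
  refine ⟨(r.num, r.den), ?_, Rat.num_div_den r⟩
  have h4 : |(r : ℝ)| ≤ max |u| |v| := abs_le_max_abs_abs h1 h2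
  have hr0 : (0 : ℝ) < r.den := by exact_mod_cast r.pos
  have hrH : (r.den : ℝ) ≤ H := by exact_mod_cast h3
  have hr1 : (r : ℝ) = r.num / r.den := by exact_mod_cast (Rat.num_div_den r).symm
  have h5 : |(r.num : ℝ)| = |(r : ℝ)| * r.den := by
    rw [hr1, abs_div, abs_of_pos hr0]
    field_simp
  have h6 : |(r.num : ℝ)| ≤ (N : ℝ) := by
    rw [h5, hN]
    push_cast
    exact mul_le_mul (h4.trans (Int.le_ceil _)) hrH hr0.le
      ((le_max_left _ _ |>.trans (Int.le_ceil _)).trans' (abs_nonneg u))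
  have h7 : |r.num| ≤ N := by exact_mod_cast h6
  rw [mem_product, mem_Icc, mem_Icc]
  exact ⟨abs_le.1 h7, Nat.zero_le _, h3⟩

theorem partA (u v lam B ε η : ℝ) (hlam : 0 < lam) (hB : 0 ≤ B) (hε : 0 < ε) (hη : 0 < η) :
    ∃ c : ℝ, 0 < c ∧ ∀ φ : ℝ → ℝ, (∀ x ∈ Set.Icc u v, |φ x| ≤ B) →
      (∀ x ∈ Set.Icc u v, ∀ y ∈ Set.Icc u v, lam * |x - y| ≤ |φ x - φ y|) →
      ∀ H : ℕ, (Exceptions u v ε c φ H).Finite ∧
        ((Exceptions u v ε c φ H).ncard : ℝ) ≤ η * (H : ℝ) ^ 2 := by
  obtain ⟨c, hc, h⟩ := val_main u v lam B ε η hlam hB hε hη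
  refine ⟨c, hc, fun φ hφB hφ H => ?_⟩
  have hfin : (Exceptions u v ε c φ H).Finite :=
    (rats_finite u v H).subset fun r hr => ⟨hr.1, hr.2.1⟩
  refine ⟨hfin, ?_⟩
  rw [Set.ncard_eq_toFinset_card _ hfin]
  refine h φ hφB hφ H _ ?_
  intro r hr
  rw [Set.Finite.mem_toFinset] at hr
  exact ⟨hr.1, hr.2.1, not_lang _ _ _ _ hr.2.2⟩

theorem partB (k : ℕ) (ε η : ℝ) (hk : 1 ≤ k) (hε : 0 < ε) (hη : 0 < η) :
    ∃ c : ℝ, 0 < c ∧ ∀ H : ℕ, (RadicalExceptions k ε c H).Finite ∧
      ((RadicalExceptions k ε c H).ncard : ℝ) ≤ η * (H : ℝ) ^ 2 := by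
  classical
  have hk0 : k ≠ 0 := by omega
  have hk1 : (1 : ℝ) ≤ k := by exact_mod_cast hk
  set v : ℝ := 2 / η with hv
  have hv0 : 0 < v := by positivity
  set M : ℝ := max 1 v with hM
  have hM1 : 1 ≤ M := le_max_left _ _
  have hM0 : 0 < M := by linarith
  set lam : ℝ := 1 / (k * M ^ (k - 1)) with hlam
  have hlam0 : 0 < lam := by positivity
  obtain ⟨c, hc, h⟩ := partA 0 v lam M ε (η / 2) hlam0 hM0.le hε (by positivity)
  have hbd : ∀ x ∈ Set.Icc 0 v, 0 ≤ x ^ (1 / (k : ℝ)) ∧ x ^ (1 / (k : ℝ)) ≤ M := by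
    rintro x ⟨hx0, hxv⟩
    refine ⟨Real.rpow_nonneg hx0 _, ?_⟩
    calc x ^ (1 / (k : ℝ)) ≤ M ^ (1 / (k : ℝ)) :=
          Real.rpow_le_rpow hx0 (hxv.trans (le_max_right _ _)) (by positivity)
      _ ≤ M ^ (1 : ℝ) := by
          apply Real.rpow_le_rpow_of_exponent_le hM1
          rw [div_le_one (by linarith)]
          exact hk1
      _ = M := Real.rpow_one M
  obtain h := h (fun x => x ^ (1 / (k : ℝ))) (fun x hx => by
      rw [abs_of_nonneg (hbd x hx).1]
      exact (hbd x hx).2) (fun x hx y hy => by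
      have h1 : (x ^ (1 / (k : ℝ))) ^ k = x := by
        rw [one_div]
        exact Real.rpow_inv_natCast_pow hx.1 hk0
      have h2 : (y ^ (1 / (k : ℝ))) ^ k = y := by
        rw [one_div]
        exact Real.rpow_inv_natCast_pow hy.1 hk0
      have h3 := abs_pow_sub_pow_le (x ^ (1 / (k : ℝ))) (y ^ (1 / (k : ℝ))) k
      rw [h1, h2] at h3
      have h4 : max |x ^ (1 / (k : ℝ))| |y ^ (1 / (k : ℝ))| ≤ M := by
        rw [abs_of_nonneg (hbd x hx).1, abs_of_nonneg (hbd y hy).1]
        exact max_le (hbd x hx).2 (hbd y hy).2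
      have h5 : |x - y| ≤ |x ^ (1 / (k : ℝ)) - y ^ (1 / (k : ℝ))| * (k * M ^ (k - 1)) := by
        refine h3.trans ?_
        rw [mul_assoc]
        apply mul_le_mul_of_nonneg_left _ (abs_nonneg _)
        apply mul_le_mul_of_nonneg_left _ (by linarith)
        exact pow_le_pow_left₀ (le_max_of_le_left (abs_nonneg _)) h4 _
      rw [hlam, one_div, inv_mul_le_iff₀ (by positivity)]
      linarith)
  refine ⟨c, hc, fun H => ?_⟩
  obtain ⟨hf, hn⟩ := h H
  set L : ℕ := ⌊(H : ℝ) / v⌋₊ with hL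
  set E2 : Finset ℚ := (Icc 1 H ×ˢ Icc 1 L).image (fun z : ℕ × ℕ => (z.1 : ℚ) / z.2) with hE2
  have hsub : RadicalExceptions k ε c H ⊆
      Exceptions 0 v ε c (fun x => x ^ (1 / (k : ℝ))) H ∪ (E2 : Set ℚ) := by
    rintro r ⟨h1, h2, h3, h4⟩
    rcases le_or_gt (r : ℝ) v with h5 | h5
    · left
      exact ⟨⟨by exact_mod_cast h1.le, h5⟩, h3, h4⟩
    · right
      rw [Finset.mem_coe, hE2, mem_image]
      have hnum : 0 < r.num := Rat.num_pos.2 h1
      have hr0 : (0 : ℝ) < r.den := by exact_mod_cast r.pos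
      have hr1 : (r : ℝ) = r.num / r.den := by exact_mod_cast (Rat.num_div_den r).symm
      have h6 : v * r.den < r.num := by
        rw [hr1, lt_div_iff₀ hr0] at h5
        exact h5
      have h7 : (r.num : ℝ) ≤ H := by exact_mod_cast h2
      refine ⟨(r.num.toNat, r.den), ?_, ?_⟩
      · rw [mem_product, mem_Icc, mem_Icc]
        refine ⟨⟨by omega, by omega⟩, r.pos, Nat.le_floor ?_⟩
        rw [le_div_iff₀ hv0]
        linarith
      · have h8 : ((r.num.toNat : ℕ) : ℚ) = (r.num : ℚ) := by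
          have : ((r.num.toNat : ℕ) : ℤ) = r.num := Int.toNat_of_nonneg hnum.le
          exact_mod_cast congrArg (Int.cast : ℤ → ℚ) this
        simp only [h8]
        exact Rat.num_div_den r
  have hfin : (Exceptions 0 v ε c (fun x => x ^ (1 / (k : ℝ))) H ∪ (E2 : Set ℚ)).Finite :=
    hf.union (Finset.finite_toSet _)
  refine ⟨hfin.subset hsub, ?_⟩
  have hcardE2 : (E2.card : ℝ) ≤ η / 2 * (H : ℝ) ^ 2 := by
    have h1 : E2.card ≤ H * L := by
      rw [hE2]
      refine Finset.card_image_le.trans ?_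
      rw [card_product, Nat.card_Icc, Nat.card_Icc]
      simp
    have h2 : (L : ℝ) ≤ (H : ℝ) / v := Nat.floor_le (by positivity)
    calc (E2.card : ℝ) ≤ ((H * L : ℕ) : ℝ) := by exact_mod_cast h1
      _ = (H : ℝ) * L := by push_cast; ring
      _ ≤ (H : ℝ) * (H / v) := mul_le_mul_of_nonneg_left h2 (Nat.cast_nonneg _)
      _ = η / 2 * (H : ℝ) ^ 2 := by
          rw [hv]
          field_simp
  have h1 := Set.ncard_le_ncard hsub hfin
  have h2 := Set.ncard_union_le (Exceptions 0 v ε c (fun x => x ^ (1 / (k : ℝ))) H) (E2 : Set ℚ)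
  rw [Set.ncard_coe_finset] at h2
  have h3 : ((RadicalExceptions k ε c H).ncard : ℝ) ≤
      ((Exceptions 0 v ε c (fun x => x ^ (1 / (k : ℝ))) H).ncard : ℝ) + E2.card := by
    exact_mod_cast h1.trans h2
  linarith

/-- **Lang's inequality for almost all values of a function at rational numbers.**

(A) Let `u, v, B` be real numbers and `λ, ε, η > 0`. There is `c > 0` such that for every real
function `φ` with `|φ(x)| ≤ B` and `|φ(x) - φ(y)| ≥ λ |x - y|` for `x, y` in `[u, v]` and for every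
`H` all but at most `η H²` of the rational numbers `r` in `[u, v]` with denominator at most `H` have
the property that `α = φ(r)` satisfies `|α - p / q| > c / (q² (log q)^(1+ε))` for all integers `p`
and all `2 ≤ q ≤ c H`. (If `φ` is a branch of an algebraic function, then the `φ(r)` are
algebraic numbers.)

(B) For all `k ≥ 1` and `ε, η > 0` there is `c > 0` such that for every `H` all but at most `η H²` of
the positive rational numbers `r = a / b` with `a, b ≤ H` have the property that `α = r ^ (1 / k)`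
satisfies `|α - p / q| > c / (q² (log q)^(1+ε))` for all integers `p` and all `2 ≤ q ≤ c H`. -/
theorem result :
    (∀ u v lam B ε η : ℝ, 0 < lam → 0 ≤ B → 0 < ε → 0 < η →
      ∃ c : ℝ, 0 < c ∧ ∀ φ : ℝ → ℝ, (∀ x ∈ Set.Icc u v, |φ x| ≤ B) →
        (∀ x ∈ Set.Icc u v, ∀ y ∈ Set.Icc u v, lam * |x - y| ≤ |φ x - φ y|) →
        ∀ H : ℕ, (Exceptions u v ε c φ H).Finite ∧
          ((Exceptions u v ε c φ H).ncard : ℝ) ≤ η * (H : ℝ) ^ 2) ∧
    (∀ (k : ℕ) (ε η : ℝ), 1 ≤ k → 0 < ε → 0 < η →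
      ∃ c : ℝ, 0 < c ∧ ∀ H : ℕ, (RadicalExceptions k ε c H).Finite ∧
        ((RadicalExceptions k ε c H).ncard : ℝ) ≤ η * (H : ℝ) ^ 2) :=
  ⟨fun u v lam B ε η h1 h2 h3 h4 => partA u v lam B ε η h1 h2 h3 h4,
    fun k ε η h1 h2 h3 => partB k ε η h1 h2 h3⟩

end Pool.Agent.Results.MP_c307ca_nt.ValuesAtRationals
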